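import Pool.Agent.Q241.PI.Dens

set_option autoImplicit false

/-!
# The `p`-intersection number of the graphs `K(n × k)`

Definitions (`Pool.Agent.Q241.PI.Lower`): `KG n k` is the graph `K(n × k)` with vertices `(α, l)`,
`HasRep p G t` means that `G` has a `p`-intersection representation on a set with `t` elements, and
`theta p G` is the least such `t`.
-/

namespace Pool.Agent.Results.MP_890668_co.Asymptotics

open Pool.Agent.Q241.PI Filter Topology

theorem dvd_pow_sub_one {p r E : ℕ} (hr : r.Coprime p) (hE : p.totient ∣ E) (hr0 : 0 < r) :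
    p ∣ r ^ E - 1 := by
  obtain ⟨m, rfl⟩ := hE
  have h1 : r ^ (p.totient * m) ≡ 1 [MOD p] := by
    rw [pow_mul]
    have := (Nat.ModEq.pow_totient hr).pow m
    rwa [one_pow] at this
  exact (Nat.modEq_iff_dvd' (Nat.one_le_pow _ _ hr0)).1 h1.symm

theorem rep_pow {p n r₁ r₂ : ℕ} (hp : 1 ≤ p) (h1 : r₁.Prime) (h2 : r₂.Prime) (hr1 : p < r₁)
    (hr2 : p < r₂) {a b k : ℕ} (ha : 1 ≤ a) (hb : 1 ≤ b)
    (hk : k ≤ r₁ ^ (p.totient * (n * p + 1) * a) * r₂ ^ (p.totient * (n * p + 1) * b)) :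
    ∃ t, p * t = (r₁ ^ (p.totient * (n * p + 1) * a) * r₂ ^ (p.totient * (n * p + 1) * b)) *
      ((r₁ ^ (p.totient * (n * p + 1) * a) * r₂ ^ (p.totient * (n * p + 1) * b)) - 1) ∧
      HasRep p (KG n k) t := by
  have hphi : 0 < p.totient := Nat.totient_pos.2 hp
  set E := p.totient * (n * p + 1) with hE
  have hEle : n * p + 1 ≤ E := Nat.le_mul_of_pos_left _ hphi
  have key : ∀ r : ℕ, r.Prime → p < r → ∀ c : ℕ, 1 ≤ c →
      ∃ (F : Type) (_ : Field F) (_ : Fintype F), Fintype.card F = r ^ (E * c) ∧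
        p ∣ Fintype.card F - 1 ∧ n * p ≤ Fintype.card F - 1 := by
    intro r hr hpr c hc
    haveI : Fact r.Prime := ⟨hr⟩
    have hEc : E * c ≠ 0 := by positivity
    haveI : Fintype (GaloisField r (E * c)) := Fintype.ofFinite _
    have hcard : Fintype.card (GaloisField r (E * c)) = r ^ (E * c) := by
      rw [← Nat.card_eq_fintype_card, GaloisField.card _ _ hEc]
    have hcop : r.Coprime p :=
      (hr.coprime_iff_not_dvd).2 fun h => absurd (Nat.le_of_dvd (by omega) h) (by omega)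
    refine ⟨GaloisField r (E * c), inferInstance, inferInstance, hcard, ?_, ?_⟩
    · rw [hcard]
      exact dvd_pow_sub_one hcop ((Dvd.intro _ rfl : p.totient ∣ E).mul_right c) hr.pos
    · rw [hcard]
      have h3 : E * c < r ^ (E * c) := Nat.lt_pow_self hr.one_lt
      have h4 : E ≤ E * c := Nat.le_mul_of_pos_right _ hc
      omega
  obtain ⟨F₁, _, _, hc1, hd1, hn1⟩ := key r₁ h1 hr1 a ha
  obtain ⟨F₂, _, _, hc2, hd2, hn2⟩ := key r₂ h2 hr2 b hb
  obtain ⟨U, f, hg⟩ := good_prod F₁ F₂ (n := n) hp hd1 hn1 hd2 hn2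
  have hcard : Fintype.card (F₁ × F₂) = r₁ ^ (E * a) * r₂ ^ (E * b) := by
    rw [Fintype.card_prod, hc1, hc2]
  have := ring_rep hg (k := k) (by rw [hcard]; exact hk)
  rwa [hcard] at this

theorem two_primes (p : ℕ) : ∃ r₁ r₂ : ℕ, r₁.Prime ∧ r₂.Prime ∧ p < r₁ ∧ p < r₂ ∧ r₁ ≠ r₂ := by
  obtain ⟨r₁, h1, h2⟩ := Nat.exists_infinite_primes (p + 1)
  obtain ⟨r₂, h3, h4⟩ := Nat.exists_infinite_primes (r₁ + 1)
  exact ⟨r₁, r₂, h2, h4, by omega, by omega, by omega⟩

theorem nonempty_rep {p : ℕ} (hp : 1 ≤ p) (n k : ℕ) : ∃ t, HasRep p (KG n k) t := by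
  obtain ⟨r₁, r₂, h1, h2, h3, h4, -⟩ := two_primes p
  have hphi : 0 < p.totient := Nat.totient_pos.2 hp
  obtain ⟨t, -, ht⟩ := rep_pow (n := n) (k := k) (a := k + 1) (b := 1) hp h1 h2 h3 h4 (by omega)
    le_rfl (by
      have h5 : p.totient * (n * p + 1) * (k + 1) < r₁ ^ (p.totient * (n * p + 1) * (k + 1)) :=
        Nat.lt_pow_self h1.one_lt
      have h6 : 1 ≤ r₂ ^ (p.totient * (n * p + 1) * 1) := Nat.one_le_pow _ _ h2.pos
      have h7 : k + 1 ≤ p.totient * (n * p + 1) * (k + 1) :=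
        Nat.le_mul_of_pos_left _ (by positivity)
      calc k ≤ r₁ ^ (p.totient * (n * p + 1) * (k + 1)) := by omega
        _ ≤ _ := Nat.le_mul_of_pos_right _ h6)
  exact ⟨t, ht⟩

theorem theta_lower {n k p : ℕ} (hp : 1 ≤ p) (hn : 2 ≤ n) :
    (k : ℝ) * (k - 1) ≤ p * theta p (KG n k) :=
  lower hp hn (Nat.sInf_mem (nonempty_rep hp n k))

/-- **The `p`-intersection number of `K(n × k)` is asymptotic to `k² / p`.** -/
theorem result (p n : ℕ) (hp : 1 ≤ p) (hn : 2 ≤ n) :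
    Tendsto (fun k : ℕ => (theta p (KG n k) : ℝ) / ((k : ℝ) ^ 2 / p)) atTop (𝓝 1) ∧
    (∀ k : ℕ, (k : ℝ) * (k - 1) / p ≤ theta p (KG n k)) ∧
    (∀ q : ℕ, IsPrimePow q → p ∣ q - 1 → n * p ≤ q - 1 →
      p * theta p (KG n q) = q * (q - 1)) := by
  have hp0 : (0 : ℝ) < p := by exact_mod_cast hp
  have hlow : ∀ k : ℕ, (k : ℝ) * (k - 1) / p ≤ theta p (KG n k) := by
    intro k
    rw [div_le_iff₀ hp0, mul_comm _ (p : ℝ)]
    exact theta_lower hp hn
  refine ⟨?_, hlow, ?_⟩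
  · obtain ⟨r₁, r₂, h1, h2, h3, h4, h12⟩ := two_primes p
    have hphi : 0 < p.totient := Nat.totient_pos.2 hp
    rw [tendsto_order]
    constructor
    · intro c hc
      have h5 : Tendsto (fun k : ℕ => 1 - 1 / (k : ℝ)) atTop (𝓝 1) := by
        have := (tendsto_one_div_atTop_nhds_zero_nat (𝕜 := ℝ)).const_sub 1
        simpa using this
      filter_upwards [h5.eventually (lt_mem_nhds hc), eventually_ge_atTop 1] with k hk hk1
      have hk0 : (0 : ℝ) < k := by exact_mod_cast hk1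
      refine lt_of_lt_of_le hk ?_
      rw [le_div_iff₀ (by positivity)]
      refine le_trans (le_of_eq ?_) (hlow k)
      field_simp
    · intro c hc
      obtain ⟨e, he0, he⟩ : ∃ e : ℝ, 0 < e ∧ (1 + e) ^ 2 < c := by
        have hcont : Tendsto (fun e : ℝ => (1 + e) ^ 2) (𝓝[>] 0) (𝓝 1) := by
          have h6 : Tendsto (fun e : ℝ => (1 + e) ^ 2) (𝓝 0) (𝓝 ((1 + 0) ^ 2)) :=
            Continuous.tendsto (by fun_prop) 0
          simp only [add_zero, one_pow] at h6
          exact h6.mono_left nhdsWithin_le_nhds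
        obtain ⟨e, he1, he2⟩ := ((hcont.eventually (gt_mem_nhds hc)).and
          self_mem_nhdsWithin).exists
        exact ⟨e, he2, he1⟩
      obtain ⟨K0, hK0⟩ := exists_size r₁ r₂ (p.totient * (n * p + 1)) h1 h2 h12 (by positivity) e he0
      filter_upwards [eventually_ge_atTop K0, eventually_ge_atTop 1] with k hk hk1
      obtain ⟨a, b, ha, hb, h5, h6⟩ := hK0 k hk
      obtain ⟨t, ht1, ht2⟩ := rep_pow (n := n) (k := k) hp h1 h2 h3 h4 ha hb h5
      have h7 : theta p (KG n k) ≤ t := Nat.sInf_le ht2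
      have hk0 : (0 : ℝ) < k := by exact_mod_cast hk1
      set Q := r₁ ^ (p.totient * (n * p + 1) * a) * r₂ ^ (p.totient * (n * p + 1) * b) with hQ
      have h8 : (p : ℝ) * t ≤ (Q : ℝ) ^ 2 := by
        have h9 : p * t ≤ Q ^ 2 := by
          rw [ht1, sq]
          exact Nat.mul_le_mul_left _ (Nat.sub_le _ _)
        exact_mod_cast h9
      have h10 : (Q : ℝ) ^ 2 ≤ ((1 + e) * k) ^ 2 := pow_le_pow_left₀ (by positivity) h6 2
      rw [div_lt_iff₀ (by positivity)]
      have h11 : (p : ℝ) * theta p (KG n k) ≤ (1 + e) ^ 2 * k ^ 2 := by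
        calc (p : ℝ) * theta p (KG n k) ≤ p * t :=
              mul_le_mul_of_nonneg_left (by exact_mod_cast h7) hp0.le
          _ ≤ _ := (h8.trans h10).trans (le_of_eq (by ring))
      have h12' : (1 + e) ^ 2 * (k : ℝ) ^ 2 < c * k ^ 2 :=
        mul_lt_mul_of_pos_right he (by positivity)
      rw [← mul_div_assoc, lt_div_iff₀ hp0, mul_comm _ (p : ℝ)]
      exact lt_of_le_of_lt h11 h12'
  · intro q hq hd hnq
    obtain ⟨r, e, hr, he, rfl⟩ := hq
    haveI : Fact r.Prime := ⟨hr.nat_prime⟩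
    haveI : Fintype (GaloisField r e) := Fintype.ofFinite _
    have hcard : Fintype.card (GaloisField r e) = r ^ e := by
      rw [← Nat.card_eq_fintype_card, GaloisField.card _ _ he.ne']
    obtain ⟨U, f, hg⟩ := good_field (GaloisField r e) (n := n) hp (by rw [hcard]; exact hd)
      (by rw [hcard]; exact hnq)
    obtain ⟨t, ht1, ht2⟩ := ring_rep hg (k := r ^ e) (by rw [hcard])
    rw [hcard] at ht1
    have h7 : theta p (KG n (r ^ e)) ≤ t := Nat.sInf_le ht2
    have h8 := theta_lower (k := r ^ e) hp hn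
    have h9 : 1 ≤ r ^ e := Nat.one_le_pow _ _ hr.nat_prime.pos
    have h10 : r ^ e * (r ^ e - 1) ≤ p * theta p (KG n (r ^ e)) := by
      rw [← Nat.cast_one, ← Nat.cast_sub h9] at h8
      exact_mod_cast h8
    exact le_antisymm ((Nat.mul_le_mul_left _ h7).trans ht1.le) h10

end Pool.Agent.Results.MP_890668_co.Asymptotics
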